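import Pool.Agent.H54.G.W237.RK.Defs

set_option autoImplicit false

/-!
# Kummer independence
-/

namespace Pool.Agent.W540.RK

open Pool.Agent.W237.RK
open Pool.Agent.H58P (Qb ht)

/-- powers in `Qbˣ` are surjective -/
theorem exists_pow (u : Qbˣ) {m : ℕ} (hm : 0 < m) : ∃ z : Qbˣ, z ^ m = u := by
  obtain ⟨z, hz⟩ := IsAlgClosed.exists_pow_nat_eq (u : Qb) hm
  have hz0 : z ≠ 0 := by
    rintro rfl
    rw [zero_pow hm.ne'] at hz
    exact u.ne_zero hz.symm
  exact ⟨Units.mk0 z hz0, Units.ext (by simpa using hz)⟩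

/-- extraction of roots of homomorphisms trivial on the torsion -/
theorem lift_hom {A : Type*} [CommGroup A] (hA : Group.FG A) {k : ℕ} (hk : 0 < k) (ω : A →* Qbˣ)
    (h2 : ∀ y, IsOfFinOrder y → ω y = 1) :
    ∃ ψ : A →* Qbˣ, (∀ y, ψ y ^ k = ω y) ∧ ∀ y, IsOfFinOrder y → ψ y = 1 := by
  have hfin : Module.Finite ℤ (Additive A) :=
    Module.Finite.iff_addGroup_fg.2 (GroupFG.iff_add_fg.1 hA)
  let ω' : Additive A →ₗ[ℤ] Additive Qbˣ := (MonoidHom.toAdditive ω).toIntLinearMap
  have hω' : ∀ x : Additive A, (ω' x).toMul = ω x.toMul := fun _ => rfl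
  let T : Submodule ℤ (Additive A) := Submodule.torsion ℤ (Additive A)
  have hT : ∀ x : Additive A, x ∈ T ↔ IsOfFinOrder x.toMul := by
    intro x
    rw [Submodule.mem_torsion_iff]
    constructor
    · rintro ⟨a, ha⟩
      have h1 : x.toMul ^ (a : ℤ) = 1 := congrArg Additive.toMul ha
      exact isOfFinOrder_iff_zpow_eq_one.2 ⟨a, nonZeroDivisors.coe_ne_zero a, h1⟩
    · intro h
      obtain ⟨n, hn, h1⟩ := isOfFinOrder_iff_pow_eq_one.1 h
      refine ⟨⟨(n : ℤ), mem_nonZeroDivisors_of_ne_zero (by exact_mod_cast hn.ne')⟩, ?_⟩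
      apply Additive.toMul.injective
      show x.toMul ^ (n : ℤ) = 1
      rw [zpow_natCast, h1]
  have hle : T ≤ LinearMap.ker ω' := by
    intro x hx
    rw [LinearMap.mem_ker]
    apply Additive.toMul.injective
    exact h2 _ ((hT x).1 hx)
  let g : (Additive A ⧸ T) →ₗ[ℤ] Additive Qbˣ := T.liftQ ω' hle
  have hfree : Module.Free ℤ (Additive A ⧸ T) := Module.free_of_finite_type_torsion_free'
  let f : Additive Qbˣ →ₗ[ℤ] Additive Qbˣ := (k : ℤ) • LinearMap.id
  have hf : Function.Surjective f := by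
    intro u
    obtain ⟨z, hz⟩ := exists_pow u.toMul hk
    refine ⟨Additive.ofMul z, ?_⟩
    apply Additive.toMul.injective
    show z ^ (k : ℤ) = u.toMul
    rw [zpow_natCast, hz]
  obtain ⟨h, hh⟩ := Module.projective_lifting_property f g hf
  let ψ : A →* Qbˣ :=
    { toFun := fun y => (h (T.mkQ (Additive.ofMul y))).toMul
      map_one' := by simp
      map_mul' := by
        intro x y
        rw [ofMul_mul, map_add, map_add, toMul_add] }
  refine ⟨ψ, ?_, ?_⟩
  · intro y
    have h3 := LinearMap.congr_fun hh (T.mkQ (Additive.ofMul y))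
    have h4 : (f (h (T.mkQ (Additive.ofMul y)))).toMul = ψ y ^ (k : ℤ) := rfl
    have h5 : (g (T.mkQ (Additive.ofMul y))).toMul = ω y := rfl
    rw [← zpow_natCast, ← h4, ← h5]
    exact congrArg Additive.toMul h3
  · intro y hy
    have h3 : T.mkQ (Additive.ofMul y) = 0 := by
      rw [Submodule.mkQ_apply, Submodule.Quotient.mk_eq_zero, hT]
      exact hy
    show (h (T.mkQ (Additive.ofMul y))).toMul = 1
    rw [h3, map_zero]; rfl

/-- the group of `R`-division points is finitely generated -/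
theorem comap_fg {Γ : Subgroup Qbˣ} (hΓ : Γ.FG) {R : ℕ} (hR : 0 < R) :
    (Γ.comap (powMonoidHom R)).FG := by
  rw [Subgroup.fg_iff_add_fg] at hΓ ⊢
  set S := Γ.comap (powMonoidHom R) with hS
  let S' : Submodule ℤ (Additive Qbˣ) := AddSubgroup.toIntSubmodule (Subgroup.toAddSubgroup S)
  let Γ' : Submodule ℤ (Additive Qbˣ) := AddSubgroup.toIntSubmodule (Subgroup.toAddSubgroup Γ)
  have hΓ' : Γ'.FG := by
    rw [Submodule.fg_iff_addSubgroup_fg]
    exact hΓ
  have hN : IsNoetherian ℤ Γ' := by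
    have : Module.Finite ℤ Γ' := Module.Finite.iff_fg.2 hΓ'
    infer_instance
  suffices h : S'.FG by
    rw [Submodule.fg_iff_addSubgroup_fg] at h
    exact h
  let f : Additive Qbˣ →ₗ[ℤ] Additive Qbˣ := (R : ℤ) • LinearMap.id
  have hf : ∀ x : Additive Qbˣ, (f x).toMul = x.toMul ^ R := by
    intro x
    show x.toMul ^ (R : ℤ) = _
    rw [zpow_natCast]
  refine Submodule.fg_of_fg_map_of_fg_inf_ker f ?_ ?_
  · have hle : Submodule.map f S' ≤ Γ' := by
      rintro _ ⟨x, hx, rfl⟩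
      have hx' : x.toMul ^ R ∈ Γ := hx
      show (f x).toMul ∈ Γ
      rw [hf]
      exact hx'
    exact Submodule.FG.of_le hΓ' hle
  · have hfin : Finite (LinearMap.ker f) := by
      have : Finite (rootsOfUnity R Qb) := by
        have : NeZero R := ⟨hR.ne'⟩
        infer_instance
      refine Finite.of_injective (β := rootsOfUnity R Qb)
        (fun x => ⟨(x : Additive Qbˣ).toMul, ?_⟩) ?_
      · rw [mem_rootsOfUnity, ← hf]
        have := LinearMap.mem_ker.1 x.2
        rw [this]; rfl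
      · intro x y hxy
        apply Subtype.ext
        exact congrArg Subtype.val hxy
    have hfin' : Finite (S' ⊓ LinearMap.ker f : Submodule ℤ (Additive Qbˣ)) :=
      Finite.of_injective (fun x => (⟨x.1, x.2.2⟩ : LinearMap.ker f)) (by
        intro x y h
        have h' : (⟨x.1, x.2.2⟩ : LinearMap.ker f) = ⟨y.1, y.2.2⟩ := h
        apply Subtype.ext
        have h'' : x.1 = y.1 := congrArg (fun z : LinearMap.ker f => (z : Additive Qbˣ)) h'
        exact h'')
    exact Module.Finite.iff_fg.1 inferInstance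

theorem ki : S_FIN → S_KDA → S_KI := by
  intro hFin hKDA p hp K Γ hK hΓ hΓK
  obtain ⟨e, he0, he⟩ := hFin K Γ hK hΓ hΓK
  refine ⟨padicValNat p e, ?_⟩
  set c := padicValNat p e with hc
  intro n M hcn hM w hw
  have hp0 : 0 < p := hp.out.pos
  have hM0 : 0 < M := Nat.pos_of_ne_zero (by rintro rfl; exact hM (dvd_zero p))
  have hn : 0 < n := by omega
  set R := p ^ n * M with hR
  have hR0 : 0 < R := by positivity
  have hn1 : p ^ (n - 1) * M * p = R := by
    rw [hR]
    have : p ^ n = p ^ (n - 1) * p := by rw [← pow_succ]; congr 1; omega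
    rw [this]; ring
  set S : Subgroup Qbˣ := Γ.comap (powMonoidHom R) with hS
  have hSmem : ∀ y : Qbˣ, y ∈ S ↔ y ^ R ∈ Γ := fun y => Iff.rfl
  have hSfg : S.FG := comap_fg hΓ hR0
  have hSG : Group.FG S := (Group.fg_iff_subgroup_fg S).2 hSfg
  -- the homomorphism of `w`
  have hwu : ∀ y : Qbˣ, w (y : Qb) ≠ 0 := fun y => by
    intro h
    exact y.ne_zero ((map_eq_zero w).1 h)
  let W : Qbˣ →* Qbˣ := Units.map (w : Qb →* Qb)
  have hW : ∀ y : Qbˣ, ((W y : Qbˣ) : Qb) = w (y : Qb) := fun y => rfl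
  let ω : S →* Qbˣ :=
    { toFun := fun y => W y / y
      map_one' := by simp
      map_mul' := by
        intro x y
        simp only [Subgroup.coe_mul, map_mul]
        rw [mul_div_mul_comm] }
  have hω : ∀ y : S, ω y = W y / y := fun _ => rfl
  have hωt : ∀ y : S, IsOfFinOrder y → ω y = 1 := by
    intro y hy
    obtain ⟨m, hm, h1⟩ := isOfFinOrder_iff_pow_eq_one.1 hy
    have h2 : w ((y : Qbˣ) : Qb) = ((y : Qbˣ) : Qb) := by
      apply hw
      refine (le_sup_right : _ ≤ levInf K Γ (p ^ (n - 1) * M)) ?_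
      apply IntermediateField.subset_adjoin
      left
      refine ⟨m, hm, ?_⟩
      have h3 : ((y : Qbˣ)) ^ m = 1 := by
        have := congrArg (Subtype.val) h1
        simpa using this
      have h4 := congrArg (Units.val) h3
      simpa using h4
    rw [hω, div_eq_one]
    apply Units.ext
    rw [hW, h2]
  have hωp : ∀ y : S, ω y ^ p = 1 := by
    intro y
    have h2 : w (((y : Qbˣ) : Qb) ^ p) = ((y : Qbˣ) : Qb) ^ p := by
      apply hw
      refine (le_sup_right : _ ≤ levInf K Γ (p ^ (n - 1) * M)) ?_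
      apply IntermediateField.subset_adjoin
      right
      refine ⟨(y : Qbˣ) ^ R, (hSmem _).1 y.2, ?_⟩
      rw [← pow_mul, mul_comm p, hn1]
      simp
    rw [hω, div_pow, div_eq_one]
    apply Units.ext
    rw [Units.val_pow_eq_pow_val, hW, ← map_pow, h2, Units.val_pow_eq_pow_val]
  obtain ⟨ψ, hψ1, hψt⟩ := lift_hom hSG (pow_pos hp0 (n - 1)) ω hωt
  have hψn : ∀ y : S, ψ y ^ (p ^ n) = 1 := by
    intro y
    have : p ^ n = p ^ (n - 1) * p := by rw [← pow_succ]; congr 1; omega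
    rw [this, pow_mul, hψ1, hωp]
  have hψR : ∀ y : S, ψ y ^ R = 1 := by
    intro y
    rw [hR, pow_mul, hψn, one_pow]
  -- the character
  let θ : S →* Qbˣ := (powMonoidHom (p ^ c)).comp ψ
  have hθ : ∀ y, θ y = ψ y ^ (p ^ c) := fun _ => rfl
  have hKle : K ≤ kinf K := le_sup_left
  have hμ : ∀ x : Qb, Tor x → x ∈ kinf K := by
    intro x hx
    exact (le_sup_right : _ ≤ kinf K) (IntermediateField.subset_adjoin _ _ hx)
  obtain ⟨τ, hτ1, hτ2⟩ := hKDA (kinf K) R S hR0 (fun x hx => hμ x ⟨R, hR0, hx⟩)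
    (fun y hy => by
      have h1 := hΓK _ ((hSmem y).1 hy)
      apply hKle
      simpa using h1) (by
    -- finiteness of `S / (S ∩ L)`
    classical
    let L' : Subgroup S :=
      { carrier := {y | (((y : Qbˣ)) : Qb) ∈ kinf K}
        mul_mem' := by
          intro a b ha hb
          simp only [Set.mem_ofPred_eq, Subgroup.coe_mul, Units.val_mul] at *
          exact mul_mem ha hb
        one_mem' := by simp
        inv_mem' := by
          intro a ha
          simp only [Set.mem_ofPred_eq, Subgroup.coe_inv, Units.val_inv_eq_inv_val] at *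
          exact inv_mem ha }
    have hL' : ∀ y : S, y ∈ L' ↔ (((y : Qbˣ)) : Qb) ∈ kinf K := fun _ => Iff.rfl
    have hqt : ∀ x : S ⧸ L', IsOfFinOrder x := by
      intro x
      obtain ⟨y, rfl⟩ := QuotientGroup.mk_surjective x
      refine isOfFinOrder_iff_pow_eq_one.2 ⟨R, hR0, ?_⟩
      rw [← QuotientGroup.mk_pow, QuotientGroup.eq_one_iff, hL']
      apply hKle
      have h1 := hΓK _ ((hSmem y).1 y.2)
      simpa using h1
    have hqfg : Group.FG (S ⧸ L') := QuotientGroup.fg L'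
    have hqf : Finite (S ⧸ L') := 
      CommGroup.finite_of_fg_isMulTorsion _ (by intro x; exact hqt x)
    have : Fintype (S ⧸ L') := Fintype.ofFinite _
    refine ⟨Finset.univ.image (fun x : S ⧸ L' => ((Quotient.out x : S) : Qbˣ)), ?_⟩
    intro y hy
    refine ⟨_, Finset.mem_image_of_mem _ (Finset.mem_univ (QuotientGroup.mk (⟨y, hy⟩ : S))), ?_⟩
    have h1 : (QuotientGroup.mk (Quotient.out (QuotientGroup.mk (⟨y, hy⟩ : S) : S ⧸ L')) : S ⧸ L') =
        QuotientGroup.mk ⟨y, hy⟩ := Quotient.out_eq _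
    rw [QuotientGroup.eq, hL'] at h1
    have h2 : y / ((Quotient.out (QuotientGroup.mk (⟨y, hy⟩ : S) : S ⧸ L') : S) : Qbˣ) =
        (((Quotient.out (QuotientGroup.mk (⟨y, hy⟩ : S) : S ⧸ L'))⁻¹ * ⟨y, hy⟩ : S) : Qbˣ) := by
      simp only [Subgroup.coe_mul, Subgroup.coe_inv]
      rw [mul_comm, div_eq_mul_inv]
    rw [h2]
    exact h1) θ (by
    intro y
    rw [hθ, ← pow_mul, mul_comm, pow_mul, hψR, one_pow]) (by
    intro y hy
    rw [hθ]
    obtain ⟨g, hg, ζ, hζ, h1⟩ := he _ hy (Units.ne_zero _) ⟨R, hR0, (y : Qbˣ) ^ R, (hSmem _).1 y.2,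
      by simp⟩
    obtain ⟨z, hz⟩ := exists_pow g hR0
    have hzS : z ∈ S := by rw [hSmem, hz]; exact hg
    have hζ' : IsOfFinOrder (y ^ e / (⟨z, hzS⟩ : S) ^ R) := by
      obtain ⟨m, hm, h2⟩ := hζ
      refine isOfFinOrder_iff_pow_eq_one.2 ⟨m, hm, ?_⟩
      apply Subtype.ext
      apply Units.ext
      simp only [Subgroup.coe_div, SubgroupClass.coe_pow, Subgroup.coe_one, Units.val_pow_eq_pow_val,
        Units.val_one, Units.val_div_eq_div_val]
      rw [h1, ← Units.val_pow_eq_pow_val z, hz, mul_div_assoc, div_self (Units.ne_zero g), mul_one,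
        h2]
    have h3 := hψt _ hζ'
    rw [map_div, map_pow, map_pow, hψR, div_one] at h3
    -- combine
    obtain ⟨e', he'⟩ : p ^ c ∣ e := pow_padicValNat_dvd
    have hcop : Nat.Coprime (p ^ n) e' := by
      apply Nat.Coprime.pow_left
      rw [Nat.Prime.coprime_iff_not_dvd hp.out]
      intro hdvd
      have h4 : p ^ (c + 1) ∣ e := by
        rw [he', pow_succ]
        exact mul_dvd_mul_left _ hdvd
      exact pow_succ_padicValNat_not_dvd he0.ne' h4
    have h5 : (ψ y ^ (p ^ c)) ^ e' = 1 := by rw [← pow_mul, ← he', h3]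
    have h6 : (ψ y ^ (p ^ c)) ^ (p ^ n) = 1 := by
      rw [← pow_mul, mul_comm, pow_mul, hψn, one_pow]
    have h7 := orderOf_dvd_of_pow_eq_one h5
    have h8 := orderOf_dvd_of_pow_eq_one h6
    have h9 : orderOf (ψ y ^ (p ^ c)) ∣ 1 := by
      rw [← hcop]
      exact Nat.dvd_gcd h8 h7
    exact orderOf_eq_one_iff.1 (Nat.dvd_one.1 h9))
  refine ⟨τ, hτ1, ?_⟩
  rintro y ⟨g, hg, hy⟩
  have hy0 : y ≠ 0 := by
    rintro rfl
    rw [zero_pow hR0.ne'] at hy
    exact g.ne_zero hy.symm
  have hyS : Units.mk0 y hy0 ∈ S := by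
    rw [hSmem]
    have : Units.mk0 y hy0 ^ R = g := Units.ext (by simpa using hy)
    rw [this]; exact hg
  have h1 := hτ2 ⟨_, hyS⟩
  simp only [Units.val_mk0] at h1
  have h2 : τ y / y = (θ ⟨_, hyS⟩ : Qb) := by
    rw [h1, mul_div_assoc, div_self hy0, mul_one]
  rw [h2]
  constructor
  · rw [← Units.val_pow_eq_pow_val, hθ, ← pow_mul, mul_comm, pow_mul, hψn, one_pow, Units.val_one]
  · rw [← Units.val_pow_eq_pow_val, hθ, ← pow_mul, ← pow_add]
    have : c + (n - 1 - c) = n - 1 := by omega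
    rw [this, hψ1, hω, Units.val_div_eq_div_val, hW]
    simp

end Pool.Agent.W540.RK

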